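import Mathlib

open Polynomial

namespace H48Stein

noncomputable section

/-- `ℂ[η][x]`, with inner variable `η` and outer variable `x`. -/
abbrev M := ℂ[X][X]

/-- `η` as an element of `ℂ[η][x]`. -/
def eta : M := C X

/-- a complex constant as an element of `ℂ[η][x]`. -/
def cst (z : ℂ) : M := C (C z)

/-- a polynomial in `x` as an element of `ℂ[η][x]`. -/
def lift (h : ℂ[X]) : M := h.map C

/-- `∇ g = η g' - η x g + i h' g`. -/
def nab (h : ℂ[X]) : M →ₗ[ℂ[X]] M :=
  (LinearMap.mulLeft ℂ[X] eta) ∘ₗ (derivative : M →ₗ[ℂ[X]] M) +
    LinearMap.mulLeft ℂ[X] (cst Complex.I * lift (derivative h) - eta * X)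

theorem nab_apply (h : ℂ[X]) (g : M) :
    nab h g = eta * derivative g + (cst Complex.I * lift (derivative h) - eta * X) * g := by
  simp [nab]

/-- the weight substitution `x ↦ v s`, `η ↦ s ^ d`. -/
def eps (d : ℕ) : M →+* M :=
  eval₂RingHom (eval₂RingHom ((C : ℂ[X] →+* M).comp (C : ℂ →+* ℂ[X])) (X ^ d)) (C X * X)

theorem eps_monomial (d n l : ℕ) (z : ℂ) :
    eps d (monomial n (monomial l z)) = C (monomial n z) * X ^ (d * l + n) := by
  simp only [eps, coe_eval₂RingHom, eval₂_monomial, RingHom.comp_apply]
  rw [mul_pow, ← C_mul_X_pow_eq_monomial, C_mul, C_pow, pow_add, pow_mul]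
  ring

theorem eps_C (d : ℕ) (c : ℂ[X]) : eps d (C c) = expand ℂ[X] d (c.map C) := by
  simp only [eps, coe_eval₂RingHom, eval₂_C, expand_eq_comp_X_pow, comp]
  rw [eval₂_map]

theorem coeff_eps_lift (d : ℕ) (h : ℂ[X]) (j : ℕ) :
    (eps d (lift h)).coeff j = monomial j (h.coeff j) := by
  induction h using Polynomial.induction_on' with
  | add p q hp hq =>
    simp only [lift, Polynomial.map_add, map_add, coeff_add] at *
    rw [hp, hq]
  | monomial n a =>
    have : lift (monomial n a) = monomial n (monomial 0 a) := by
      simp [lift]
    rw [this, eps_monomial, coeff_C_mul, coeff_X_pow, coeff_monomial]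
    simp only [mul_zero, zero_add]
    by_cases hj : j = n
    · subst hj; simp
    · rw [if_neg hj, if_neg (Ne.symm hj)]; simp

theorem coeff_eps_derivative (d : ℕ) (g : M) (N : ℕ) :
    (eps d (derivative g)).coeff N = derivative ((eps d g).coeff (N + 1)) := by
  induction g using Polynomial.induction_on' with
  | add p q hp hq => simp only [map_add, coeff_add, hp, hq]
  | monomial n a =>
    induction a using Polynomial.induction_on' with
    | add p q hp hq => simp only [map_add, coeff_add, derivative_add, hp, hq]
    | monomial l z =>
      rcases n with _ | n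
      · rw [eps_monomial]
        simp [coeff_X_pow]
        split_ifs <;> simp
      · have h1 : derivative (monomial (n + 1) (monomial l z) : M)
            = monomial n (monomial l (z * (n + 1))) := by
          rw [derivative_monomial]
          simp only [Nat.cast_add, Nat.cast_one, Nat.add_sub_cancel]
          congr 1
          rw [← C_eq_natCast, mul_add, mul_one, monomial_mul_C, ← map_add]
          congr 1; ring
        rw [h1, eps_monomial, eps_monomial, coeff_C_mul, coeff_C_mul, coeff_X_pow, coeff_X_pow]
        by_cases hN : N = d * l + n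
        · subst hN
          rw [if_pos rfl, if_pos (by ring), mul_one, mul_one, derivative_monomial]
          simp
        · rw [if_neg hN, if_neg (by omega)]
          simp

end

end H48Stein
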