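import Pool.Agent.H48.SteinAlg

open Polynomial

namespace H48Stein

noncomputable section

theorem roots_lemma {n : ℕ} (hn : 0 < n) {a : ℂ} (ha : a ≠ 0) {F : ℂ[X]}
    (hF : ∀ z, z ^ n = a → F.eval z = 0) (hdeg : F.natDegree < n) : F = 0 := by
  classical
  have hsep : (X ^ n - C a : ℂ[X]).Separable :=
    separable_X_pow_sub_C a (by exact_mod_cast hn.ne') ha
  have hnd := nodup_roots hsep
  have hcard : (X ^ n - C a : ℂ[X]).roots.card = n := by
    rw [IsAlgClosed.card_roots_eq_natDegree, natDegree_X_pow_sub_C]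
  refine eq_zero_of_natDegree_lt_card_of_eval_eq_zero' F (X ^ n - C a : ℂ[X]).roots.toFinset
    ?_ ?_
  · intro z hz
    apply hF
    rw [Multiset.mem_toFinset, mem_roots', IsRoot.def] at hz
    have := hz.2
    simp only [eval_sub, eval_pow, eval_X, eval_C] at this
    exact sub_eq_zero.mp this
  · rw [Multiset.toFinset_card_of_nodup hnd, hcard]
    exact hdeg

/-- The polynomial `P` of small degree vanishing at `0` and at `z ^ (d+2)` for `i p z ^ d = 1`. -/
theorem P_eq_zero {s r d : ℕ} (hd : 0 < d) (hdr : d = s * (r - 1)) (hs : (s = 1 ∧ Odd d) ∨ s = 2)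
    {c : ℂ} (hc : c ≠ 0) {P : ℂ[X]} (hP0 : P.eval 0 = 0)
    (hPz : ∀ z : ℂ, z ^ d = c → P.eval (z ^ (d + 2)) = 0) (hdeg : P.natDegree < r) : P = 0 := by
  obtain ⟨P1, rfl⟩ : X ∣ P := by
    rw [X_dvd_iff, coeff_zero_eq_eval_zero, hP0]
  by_contra hne
  have hP1 : P1 ≠ 0 := fun h => hne (by rw [h, mul_zero])
  have hnd : (X * P1).natDegree = P1.natDegree + 1 := natDegree_X_mul hP1
  have hr : 2 ≤ r := by
    rcases Nat.lt_or_ge r 2 with h | h
    · exfalso
      have : r - 1 = 0 := by omega
      rw [this, mul_zero] at hdr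
      omega
    · exact h
  set F : ℂ[X] := P1.comp (C c * X ^ 2) with hFdef
  have hFz : ∀ z, z ^ d = c → F.eval z = 0 := by
    intro z hz
    have hz0 : z ≠ 0 := by
      rintro rfl
      rw [zero_pow hd.ne'] at hz
      exact hc hz.symm
    have h := hPz z hz
    rw [eval_mul, eval_X] at h
    have h2 : P1.eval (z ^ (d + 2)) = 0 := by
      rcases mul_eq_zero.mp h with h | h
      · exact absurd h (pow_ne_zero _ hz0)
      · exact h
    rw [hFdef, eval_comp]
    simp only [eval_mul, eval_C, eval_pow, eval_X]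
    rw [pow_add, hz] at h2
    exact h2
  have hFdeg : F.natDegree ≤ 2 * (r - 2) := by
    refine (natDegree_comp_le).trans ?_
    have h1 : (C c * X ^ 2 : ℂ[X]).natDegree ≤ 2 := natDegree_C_mul_X_pow_le c 2
    have h2 : P1.natDegree ≤ r - 2 := by omega
    calc P1.natDegree * (C c * X ^ 2 : ℂ[X]).natDegree ≤ (r - 2) * 2 := Nat.mul_le_mul h2 h1
      _ = 2 * (r - 2) := mul_comm _ _
  have hF0 : F = 0 := by
    rcases hs with ⟨rfl, hodd⟩ | rfl
    · have hc2 : c ^ 2 ≠ 0 := pow_ne_zero 2 hc
      refine roots_lemma (n := 2 * d) (by omega) hc2 ?_ (by omega)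
      intro z hz
      have hz' : (z ^ d - c) * (z ^ d + c) = 0 := by
        have : z ^ (2 * d) = (z ^ d) ^ 2 := by rw [← pow_mul, mul_comm]
        rw [this] at hz
        linear_combination hz
      rcases mul_eq_zero.mp hz' with h | h
      · exact hFz z (sub_eq_zero.mp h)
      · have h1 : (-z) ^ d = c := by
          rw [hodd.neg_pow]
          linear_combination -h
        have h2 := hFz (-z) h1
        rw [hFdef, eval_comp] at h2 ⊢
        simpa using h2
    · exact roots_lemma hd hc hFz (by omega)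
  rw [hFdef] at hF0
  apply hP1
  have hlc : (C c * X ^ 2 : ℂ[X]).natDegree = 2 := natDegree_C_mul_X_pow 2 c hc
  rcases comp_eq_zero_iff.mp hF0 with h | ⟨_, h⟩
  · exact h
  · rw [h] at hlc
    simp at hlc

end

end H48Stein
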