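import Pool.Agent.H48.SteinAlg2

open Polynomial

namespace H48Stein

noncomputable section

/-- the top coefficient polynomial `i p v^(d+1) - v`. -/
def topv (d : ℕ) : ℂ[X] := C (Complex.I * (d + 2)) * X ^ (d + 1) - X

theorem topv_ne_zero {d : ℕ} (hd : 0 < d) : topv d ≠ 0 := by
  intro h
  have := congrArg (fun q => q.coeff 1) h
  simp only [topv, coeff_sub, coeff_C_mul, coeff_X_pow, coeff_X_one, coeff_zero] at this
  rw [if_neg (by omega)] at this
  simp at this

theorem eval_topv (d : ℕ) (z : ℂ) :
    (topv d).eval z = Complex.I * (d + 2) * z ^ (d + 1) - z := by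
  simp [topv]

/-- If `g` is the image under `eps`, the image of `nab h G` has top coefficient divisible by
`topv`. -/
theorem coeff_eps_nab {d : ℕ} (hd : 0 < d) {h : ℂ[X]} (hm : h.Monic) (hp : h.natDegree = d + 2)
    (G : M) {W : ℕ} {T : ℂ[X]} (hT : T ≠ 0) (hW : (eps d (nab h G)).coeff W = T)
    (hgt : ∀ m, W < m → (eps d (nab h G)).coeff m = 0) : topv d ∣ T := by
  classical
  set g := eps d G with hg
  set H' := eps d (lift (derivative h)) with hH'
  set Q : M := cst Complex.I * H' - X ^ d * (C X * X) with hQ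
  have heps : eps d (nab h G) = X ^ d * eps d (derivative G) + Q * g := by
    rw [nab_apply, map_add, map_mul, map_mul, map_sub, map_mul, map_mul]
    have h1 : eps d eta = X ^ d := by
      simp [eps, eta]
    have h2 : eps d (cst Complex.I) = cst Complex.I := by
      simp [eps, cst]
    have h3 : eps d X = C X * X := by
      simp [eps]
    rw [h1, h2, h3]
  have hQcoeff : ∀ m, Q.coeff m = C Complex.I * monomial m ((derivative h).coeff m)
      - (if m = d + 1 then X else 0) := by
    intro m
    have : (X ^ d * (C X * X) : M) = C X * X ^ (d + 1) := by ring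
    rw [hQ, coeff_sub, this, coeff_C_mul, coeff_X_pow, cst, coeff_C_mul, hH', coeff_eps_lift]
    split_ifs <;> simp
  have hdeg' : (derivative h).natDegree ≤ d + 1 := by
    have := natDegree_derivative_le h
    omega
  have hQtop : Q.coeff (d + 1) = topv d := by
    rw [hQcoeff, if_pos rfl, coeff_derivative, topv]
    have : h.coeff (d + 1 + 1) = 1 := by
      rw [show d + 1 + 1 = h.natDegree by omega]
      exact hm.coeff_natDegree
    rw [this, ← C_mul_X_pow_eq_monomial, ← mul_assoc, ← C_mul]
    congr 3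
    push_cast; ring_nf
  have hQdeg : Q.natDegree ≤ d + 1 := by
    rw [natDegree_le_iff_coeff_eq_zero]
    intro m hm
    rw [hQcoeff, if_neg (by omega), coeff_eq_zero_of_natDegree_lt (by omega)]
    simp
  have hQdeg' : Q.natDegree = d + 1 := by
    apply le_antisymm hQdeg
    apply le_natDegree_of_ne_zero
    rw [hQtop]
    exact topv_ne_zero hd
  have hfirst : ∀ m, g.natDegree + d < m → (X ^ d * eps d (derivative G)).coeff m = 0 := by
    intro m hm
    obtain ⟨k, rfl⟩ : ∃ k, m = k + d := ⟨m - d, by omega⟩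
    rw [coeff_X_pow_mul, coeff_eps_derivative, ← hg, coeff_eq_zero_of_natDegree_lt (by omega)]
    simp
  have htopcoeff : (eps d (nab h G)).coeff (d + 1 + g.natDegree) = topv d * g.leadingCoeff := by
    rw [heps, coeff_add, hfirst _ (by omega), zero_add]
    have := coeff_mul_degree_add_degree Q g
    rw [hQdeg'] at this
    rw [this, leadingCoeff, hQdeg', hQtop]
  have hhigh : ∀ m, d + 1 + g.natDegree < m → (eps d (nab h G)).coeff m = 0 := by
    intro m hm
    rw [heps, coeff_add, hfirst _ (by omega), zero_add]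
    apply coeff_eq_zero_of_natDegree_lt
    refine lt_of_le_of_lt natDegree_mul_le ?_
    omega
  by_cases hg0 : g = 0
  · exfalso
    apply hT
    rw [← hW, heps, hg0, mul_zero, add_zero]
    by_cases hdW : d ≤ W
    · obtain ⟨k, rfl⟩ : ∃ k, W = k + d := ⟨W - d, by omega⟩
      rw [coeff_X_pow_mul, coeff_eps_derivative, ← hg, hg0]
      simp
    · rw [coeff_X_pow_mul', if_neg hdW]
  · have hne : topv d * g.leadingCoeff ≠ 0 :=
      mul_ne_zero (topv_ne_zero hd) (leadingCoeff_ne_zero.mpr hg0)
    have hW' : W = d + 1 + g.natDegree := by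
      rcases lt_trichotomy W (d + 1 + g.natDegree) with hlt | heq | hlt
      · exfalso
        apply hne
        rw [← htopcoeff]
        exact hgt _ hlt
      · exact heq
      · exfalso
        apply hT
        rw [← hW]
        exact hhigh _ hlt
    rw [← hW, hW', htopcoeff]
    exact dvd_mul_right _ _

/-- Independence of `1, ih, ..., (ih)^(r-1)` modulo the image of `nab h`. -/
theorem indep {s r d : ℕ} (hd : 0 < d) (hdr : d = s * (r - 1)) (hs : (s = 1 ∧ Odd d) ∨ s = 2)
    {h : ℂ[X]} (hm : h.Monic) (hp : h.natDegree = d + 2) (c : Fin r → ℂ[X]) (G : M)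
    (hrel : ∑ k, C (c k) * (cst Complex.I * lift h) ^ (k : ℕ) = nab h G) : c = 0 := by
  classical
  by_contra hc
  obtain ⟨k1, hk1⟩ : ∃ k, c k ≠ 0 := by
    by_contra hall
    push Not at hall
    exact hc (funext hall)
  set K : Finset (Fin r) := Finset.univ.filter (fun k => c k ≠ 0) with hK
  have hKne : K.Nonempty := ⟨k1, by simp [hK, hk1]⟩
  set wt : Fin r → ℕ := fun k => (c k).natDegree * d + (k : ℕ) * (d + 2) with hwt
  obtain ⟨k0, hk0K, hk0⟩ := K.exists_max_image wt hKne
  have hk0ne : c k0 ≠ 0 := by simpa [hK] using hk0K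
  set W := wt k0 with hW
  set H := eps d (lift h) with hH
  have hHcoeff : ∀ j, H.coeff j = monomial j (h.coeff j) := fun j => coeff_eps_lift d h j
  have hHdeg : H.natDegree = d + 2 := by
    apply le_antisymm
    · rw [natDegree_le_iff_coeff_eq_zero]
      intro m hm
      rw [hHcoeff, coeff_eq_zero_of_natDegree_lt (by omega)]
      simp
    · apply le_natDegree_of_ne_zero
      rw [hHcoeff, ← hp, hm.coeff_natDegree]
      simp
  have hHlc : H.leadingCoeff = X ^ (d + 2) := by
    rw [leadingCoeff, hHdeg, hHcoeff, ← hp, hm.coeff_natDegree, monomial_one_right_eq_X_pow]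
  set term : Fin r → M := fun k =>
    expand ℂ[X] d ((c k).map C) * (C (C Complex.I) * H) ^ (k : ℕ) with hterm
  have hepsL : eps d (∑ k, C (c k) * (cst Complex.I * lift h) ^ (k : ℕ)) = ∑ k, term k := by
    rw [map_sum]
    refine Finset.sum_congr rfl fun k _ => ?_
    rw [map_mul, map_pow, map_mul, eps_C, hterm]
    have h2 : eps d (cst Complex.I) = C (C Complex.I) := by
      simp [eps, cst]
    rw [h2]
  have hIH : (C (C Complex.I) * H : M).natDegree = d + 2 := by
    rw [natDegree_C_mul (by simp), hHdeg]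
  have hIHlc : (C (C Complex.I) * H : M).leadingCoeff = C Complex.I * X ^ (d + 2) := by
    rw [leadingCoeff_mul, leadingCoeff_C, hHlc]
  have hexpdeg : ∀ k, (expand ℂ[X] d ((c k).map C)).natDegree = (c k).natDegree * d := by
    intro k
    rw [natDegree_expand, natDegree_map_eq_of_injective (C_injective)]
  have htdeg : ∀ k, (term k).natDegree ≤ wt k := by
    intro k
    refine natDegree_mul_le.trans ?_
    rw [hexpdeg]
    refine Nat.add_le_add_left (natDegree_pow_le.trans ?_) _
    rw [hIH]
  have htcoeff : ∀ k, (term k).coeff (wt k) = C ((c k).leadingCoeff * Complex.I ^ (k : ℕ)) *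
      (X ^ (d + 2)) ^ (k : ℕ) := by
    intro k
    have h1 := coeff_mul_add_eq_of_natDegree_le (df := (c k).natDegree * d) (dg := (k : ℕ) * (d + 2))
      (f := expand ℂ[X] d ((c k).map C)) (g := (C (C Complex.I) * H) ^ (k : ℕ))
      (by rw [hexpdeg]) (natDegree_pow_le.trans (by rw [hIH]))
    rw [hterm, hwt]
    simp only
    rw [h1]
    have h2 : (expand ℂ[X] d ((c k).map C)).coeff ((c k).natDegree * d) =
        C (c k).leadingCoeff := by
      rw [coeff_expand_mul hd, coeff_map, coeff_natDegree]
    have h3 : ((C (C Complex.I) * H : M) ^ (k : ℕ)).coeff ((k : ℕ) * (d + 2)) =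
        (C Complex.I * X ^ (d + 2)) ^ (k : ℕ) := by
      rw [← hIHlc, ← hIH]
      exact coeff_pow_mul_natDegree _ _
    rw [h2, h3, mul_pow, ← mul_assoc, C_mul, C_pow]
  have hcoefW : ∀ k, (term k).coeff W = if wt k = W then
      C ((c k).leadingCoeff * Complex.I ^ (k : ℕ)) * (X ^ (d + 2)) ^ (k : ℕ) else 0 := by
    intro k
    split_ifs with hk
    · rw [← hk]; exact htcoeff k
    · by_cases hck : c k = 0
      · simp [hterm, hck]
      · have hle : wt k ≤ W := hk0 k (by simp [hK, hck])
        exact coeff_eq_zero_of_natDegree_lt (lt_of_le_of_lt (htdeg k) (by omega))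
  have hcoefgt : ∀ k m, W < m → (term k).coeff m = 0 := by
    intro k m hm
    by_cases hck : c k = 0
    · simp [hterm, hck]
    · have hle : wt k ≤ W := hk0 k (by simp [hK, hck])
      exact coeff_eq_zero_of_natDegree_lt (lt_of_le_of_lt (htdeg k) (by omega))
  set t : Fin r → ℂ := fun k => if wt k = W then (c k).leadingCoeff * Complex.I ^ (k : ℕ) else 0
    with ht
  set P : ℂ[X] := ∑ k : Fin r, C (t k) * X ^ (k : ℕ) with hP
  have hPcoeff : ∀ k : Fin r, P.coeff (k : ℕ) = t k := by
    intro k
    rw [hP, finsetSum_coeff]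
    simp only [coeff_C_mul, coeff_X_pow]
    rw [Finset.sum_eq_single k]
    · simp
    · intro b _ hb
      rw [if_neg (fun hh => hb (Fin.ext hh.symm)), mul_zero]
    · simp
  have hPne : P ≠ 0 := by
    intro h0
    have := hPcoeff k0
    rw [h0, coeff_zero, ht] at this
    simp only [hW, if_true] at this
    have h2 : (c k0).leadingCoeff * Complex.I ^ (k0 : ℕ) ≠ 0 :=
      mul_ne_zero (leadingCoeff_ne_zero.mpr hk0ne) (pow_ne_zero _ Complex.I_ne_zero)
    exact h2 this.symm
  have hr0 : 0 < r := lt_of_le_of_lt (Nat.zero_le _) k0.2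
  have hPdeg : P.natDegree < r := by
    have : P.natDegree ≤ r - 1 := by
      rw [hP]
      refine natDegree_sum_le_of_forall_le _ _ fun k _ => ?_
      refine (natDegree_C_mul_X_pow_le _ _).trans ?_
      omega
    omega
  have hTW : (eps d (nab h G)).coeff W = P.comp (X ^ (d + 2)) := by
    rw [← hrel, hepsL, finsetSum_coeff, hP]
    simp only [hcoefW]
    rw [comp, eval₂_finsetSum]
    refine Finset.sum_congr rfl fun k _ => ?_
    rw [ht]
    simp only [eval₂_mul, eval₂_C, eval₂_pow, eval₂_X]
    split_ifs <;> simp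
  have hTne : P.comp (X ^ (d + 2)) ≠ 0 := by
    intro h0
    rcases comp_eq_zero_iff.mp h0 with h1 | ⟨_, h1⟩
    · exact hPne h1
    · have := congrArg natDegree h1
      simp at this
  have hdvd := coeff_eps_nab hd hm hp G hTne hTW (by
    intro m hm
    rw [← hrel, hepsL, finsetSum_coeff]
    exact Finset.sum_eq_zero fun k _ => hcoefgt k m hm)
  obtain ⟨w, hw⟩ := hdvd
  have hIp : (Complex.I * ((d : ℂ) + 2)) ≠ 0 := by
    apply mul_ne_zero Complex.I_ne_zero
    have : ((d : ℂ) + 2) = ((d + 2 : ℕ) : ℂ) := by push_cast; ring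
    rw [this]
    exact_mod_cast (by omega : d + 2 ≠ 0)
  apply hPne
  refine P_eq_zero (c := (Complex.I * ((d : ℂ) + 2))⁻¹) hd hdr hs (inv_ne_zero hIp) ?_ ?_ hPdeg
  · have := congrArg (fun q => q.eval 0) hw
    simp only [eval_comp, eval_pow, eval_X, eval_mul, eval_topv] at this
    rw [zero_pow (by omega), zero_pow (by omega)] at this
    simpa using this
  · intro z hz
    have := congrArg (fun q => q.eval z) hw
    simp only [eval_comp, eval_pow, eval_X, eval_mul, eval_topv] at this
    rw [this]
    have h2 : Complex.I * ((d : ℂ) + 2) * z ^ (d + 1) - z = 0 := by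
      rw [pow_succ, hz, ← mul_assoc, mul_inv_cancel₀ hIp]
      ring
    rw [h2, zero_mul]

end

end H48Stein
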