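import Pool.Agent.H48.SteinAlg3

open Polynomial

namespace H48Stein

noncomputable section

/-- span of `x^(s t)`, `t < r`, plus the image of `nab h`. -/
def gen (h : ℂ[X]) (s r : ℕ) : Submodule ℂ[X] M :=
  Submodule.span ℂ[X] (Set.range fun t : Fin r => (X ^ (s * (t : ℕ)) : M)) ⊔
    LinearMap.range (nab h)

theorem C_mul_mem_gen {h : ℂ[X]} {s r : ℕ} {g : M} (q : ℂ[X]) (hg : g ∈ gen h s r) :
    C q * g ∈ gen h s r := by
  have := (gen h s r).smul_mem q hg
  rwa [smul_eq_C_mul] at this

theorem X_pow_mem_gen {s r d : ℕ} (hd : 0 < d) (hdr : d = s * (r - 1))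
    (hs : (s = 1 ∧ Odd d) ∨ s = 2) {h : ℂ[X]} (hm : h.Monic) (hp : h.natDegree = d + 2)
    (hsup : ∀ n, h.coeff n ≠ 0 → s ∣ n) (n : ℕ) (hn : s ∣ n) :
    (X ^ n : M) ∈ gen h s r := by
  induction n using Nat.strong_induction_on with
  | _ n ih =>
    have hs0 : 0 < s := by rcases hs with ⟨rfl, _⟩ | rfl <;> norm_num
    have hr : 0 < r := by
      rcases Nat.eq_zero_or_pos r with rfl | h
      · simp at hdr; omega
      · exact h
    rcases Nat.lt_or_ge n (d + 1) with hlt | hge
    · obtain ⟨t, rfl⟩ := hn
      apply Submodule.mem_sup_left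
      apply Submodule.subset_span
      have : t < r := by
        have h1 : s * t ≤ s * (r - 1) := by omega
        have h2 := Nat.le_of_mul_le_mul_left h1 hs0
        omega
      exact ⟨⟨t, this⟩, rfl⟩
    · obtain ⟨k, rfl⟩ : ∃ k, n = k + (d + 1) := ⟨n - (d + 1), by omega⟩
      -- parity facts
      have hsd : s ∣ d := ⟨_, hdr⟩
      have hk1 : s ∣ k + 1 := by
        have : k + (d + 1) = (k + 1) + d := by ring
        rw [this] at hn
        exact (Nat.dvd_add_left hsd).mp hn
      have hnab : nab h (X ^ k) ∈ gen h s r :=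
        Submodule.mem_sup_right ⟨_, rfl⟩
      -- lower part of h'
      set low : ℂ[X] := (derivative h).eraseLead with hlow
      have hdegd : (derivative h).natDegree = d + 1 := by
        apply le_antisymm
        · have := natDegree_derivative_le h
          omega
        · apply le_natDegree_of_ne_zero
          rw [coeff_derivative]
          have : h.coeff (d + 1 + 1) = 1 := by
            rw [show d + 1 + 1 = h.natDegree by omega]
            exact hm.coeff_natDegree
          rw [this, one_mul]
          exact_mod_cast (by omega : d + 1 + 1 ≠ 0)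
      have hlc : (derivative h).leadingCoeff = (d : ℂ) + 2 := by
        rw [leadingCoeff, hdegd, coeff_derivative]
        have : h.coeff (d + 1 + 1) = 1 := by
          rw [show d + 1 + 1 = h.natDegree by omega]
          exact hm.coeff_natDegree
        rw [this]; push_cast; ring
      have hsplit : derivative h = low + C ((d : ℂ) + 2) * X ^ (d + 1) := by
        have := (eraseLead_add_C_mul_X_pow (derivative h)).symm
        rw [hdegd, hlc] at this
        exact this
      have hlowmem : cst Complex.I * lift low * X ^ k ∈ gen h s r := by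
        have h1 : cst Complex.I * lift low * X ^ k =
            ∑ j ∈ low.support, C (C (Complex.I * low.coeff j)) * X ^ (j + k) := by
          have : lift low = ∑ j ∈ low.support, C (C (low.coeff j)) * X ^ j := by
            conv_lhs => rw [low.as_sum_support_C_mul_X_pow]
            simp [lift, Polynomial.map_sum]
          rw [this, Finset.mul_sum, Finset.sum_mul]
          refine Finset.sum_congr rfl fun j _ => ?_
          rw [cst, C_mul, C_mul, pow_add]
          ring
        rw [h1]
        refine Submodule.sum_mem _ fun j hj => ?_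
        have hj0 : low.coeff j ≠ 0 := mem_support_iff.mp hj
        have hjlt : j < d + 1 := by
          have := lt_natDegree_of_mem_eraseLead_support hj
          omega
        have hjc : h.coeff (j + 1) ≠ 0 := by
          intro h0
          apply hj0
          rw [hlow, eraseLead_coeff_of_ne _ (by omega), coeff_derivative, h0, zero_mul]
        have hdiv : s ∣ j + k := by
          have h1 := hsup _ hjc
          rcases hs with ⟨rfl, _⟩ | rfl
          · exact one_dvd _
          · omega
        exact C_mul_mem_gen _ (ih (j + k) (by omega) hdiv)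
      have hder : eta * derivative (X ^ k : M) ∈ gen h s r := by
        rcases k with _ | k
        · simp
        · rw [derivative_X_pow]
          have : eta * (C ((k + 1 : ℕ) : ℂ[X]) * X ^ (k + 1 - 1)) =
              C (X * ((k + 1 : ℕ) : ℂ[X])) * X ^ k := by
            rw [eta, C_mul, Nat.add_sub_cancel]; ring
          rw [this]
          refine C_mul_mem_gen _ (ih k (by omega) ?_)
          rcases hs with ⟨rfl, _⟩ | rfl
          · exact one_dvd _
          · omega
      have hup : eta * X * (X ^ k : M) ∈ gen h s r := by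
        have : eta * X * (X ^ k : M) = C X * X ^ (k + 1) := by rw [eta]; ring
        rw [this]
        exact C_mul_mem_gen _ (ih (k + 1) (by omega) hk1)
      have hkey : C (C (Complex.I * ((d : ℂ) + 2))) * (X ^ (k + (d + 1)) : M) =
          nab h (X ^ k) - eta * derivative (X ^ k : M) + eta * X * X ^ k -
            cst Complex.I * lift low * X ^ k := by
        rw [nab_apply]
        have h2 : lift (derivative h) = lift low + C (C ((d : ℂ) + 2)) * X ^ (d + 1) := by
          conv_lhs => rw [hsplit]
          simp [lift, Polynomial.map_add, Polynomial.map_mul]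
        rw [h2, cst, C_mul, C_mul]
        ring
      have hmem : C (C (Complex.I * ((d : ℂ) + 2))) * (X ^ (k + (d + 1)) : M) ∈ gen h s r := by
        rw [hkey]
        exact Submodule.sub_mem _ (Submodule.add_mem _ (Submodule.sub_mem _ hnab hder) hup)
          hlowmem
      have hIp : (Complex.I * ((d : ℂ) + 2)) ≠ 0 := by
        apply mul_ne_zero Complex.I_ne_zero
        have : ((d : ℂ) + 2) = ((d + 2 : ℕ) : ℂ) := by push_cast; ring
        rw [this]
        exact_mod_cast (by omega : d + 2 ≠ 0)
      have hfin := C_mul_mem_gen (C (Complex.I * ((d : ℂ) + 2))⁻¹) hmem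
      rwa [← mul_assoc, ← C_mul, ← C_mul, inv_mul_cancel₀ hIp, C_1, C_1, one_mul] at hfin

theorem coeff_pow_dvd {s : ℕ} {h : ℂ[X]} (hsup : ∀ n, h.coeff n ≠ 0 → s ∣ n) (k n : ℕ)
    (hn : (h ^ k).coeff n ≠ 0) : s ∣ n := by
  induction k generalizing n with
  | zero =>
    rw [pow_zero, coeff_one] at hn
    split_ifs at hn with h0
    · rw [h0]; exact dvd_zero s
    · exact absurd rfl hn
  | succ k ih =>
    rw [pow_succ, coeff_mul] at hn
    obtain ⟨x, hx, hx0⟩ := Finset.exists_ne_zero_of_sum_ne_zero hn
    have hx' : x.1 + x.2 = n := by simpa using hx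
    rw [← hx']
    exact dvd_add (ih _ (left_ne_zero_of_mul hx0)) (hsup _ (right_ne_zero_of_mul hx0))

theorem lift_pow_mem_gen {s r d : ℕ} (hd : 0 < d) (hdr : d = s * (r - 1))
    (hs : (s = 1 ∧ Odd d) ∨ s = 2) {h : ℂ[X]} (hm : h.Monic) (hp : h.natDegree = d + 2)
    (hsup : ∀ n, h.coeff n ≠ 0 → s ∣ n) (k : ℕ) :
    (cst Complex.I * lift h) ^ k ∈ gen h s r := by
  have h1 : (cst Complex.I * lift h) ^ k =
      ∑ j ∈ (h ^ k).support, C (C (Complex.I ^ k * (h ^ k).coeff j)) * X ^ j := by
    have : lift h ^ k = ∑ j ∈ (h ^ k).support, C (C ((h ^ k).coeff j)) * X ^ j := by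
      have h2 : lift h ^ k = lift (h ^ k) := by simp [lift, Polynomial.map_pow]
      rw [h2]
      conv_lhs => rw [(h ^ k).as_sum_support_C_mul_X_pow]
      simp [lift, Polynomial.map_sum]
    rw [mul_pow, this, Finset.mul_sum]
    refine Finset.sum_congr rfl fun j _ => ?_
    rw [cst, C_mul, C_mul, C_pow, C_pow]
    ring
  rw [h1]
  refine Submodule.sum_mem _ fun j hj => ?_
  exact C_mul_mem_gen _ (X_pow_mem_gen hd hdr hs hm hp hsup j
    (coeff_pow_dvd hsup k j (mem_support_iff.mp hj)))

/-- Main algebraic statement. -/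
theorem exists_relation {s r d : ℕ} (hd : 0 < d) (hdr : d = s * (r - 1))
    (hs : (s = 1 ∧ Odd d) ∨ s = 2) {h : ℂ[X]} (hm : h.Monic) (hp : h.natDegree = d + 2)
    (hsup : ∀ n, h.coeff n ≠ 0 → s ∣ n) (n : ℕ) (hn : s ∣ n) :
    ∃ (q : ℂ[X]) (c : Fin r → ℂ[X]) (G : M), q ≠ 0 ∧
      C q * X ^ n = ∑ k, C (c k) * (cst Complex.I * lift h) ^ (k : ℕ) + nab h G := by
  classical
  have hco : ∀ g : M, g ∈ gen h s r → ∃ (b : Fin r → ℂ[X]) (G : M),
      g = ∑ t, C (b t) * X ^ (s * (t : ℕ)) + nab h G := by
    intro g hg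
    obtain ⟨y, hy, z, hz, rfl⟩ := Submodule.mem_sup.mp hg
    obtain ⟨b, rfl⟩ := (Submodule.mem_span_range_iff_exists_fun ℂ[X]).mp hy
    obtain ⟨G, rfl⟩ := hz
    refine ⟨b, G, ?_⟩
    simp only [smul_eq_C_mul]
  set tar : Option (Fin r) → M := fun i => i.elim (X ^ n) fun k =>
    (cst Complex.I * lift h) ^ (k : ℕ) with htardef
  have htar : ∀ i : Option (Fin r), ∃ (b : Fin r → ℂ[X]) (G : M),
      tar i = ∑ t, C (b t) * X ^ (s * (t : ℕ)) + nab h G := by
    intro i
    rcases i with _ | k
    · exact hco _ (X_pow_mem_gen hd hdr hs hm hp hsup n hn)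
    · exact hco _ (lift_pow_mem_gen hd hdr hs hm hp hsup k)
  choose b G hbG using htar
  have hdep : ¬ LinearIndependent ℂ[X] b := by
    intro hli
    have := hli.fintype_card_le_finrank
    simp at this
  rw [Fintype.not_linearIndependent_iff] at hdep
  obtain ⟨w, hw, i0, hi0⟩ := hdep
  have hw' : ∀ t, ∑ i, w i * b i t = 0 := by
    intro t
    have := congrFun hw t
    simpa [Finset.sum_apply] using this
  have hstep : ∀ i, C (w i) * tar i = ∑ t, C (w i * b i t) * (X : M) ^ (s * (t : ℕ)) +
      C (w i) * nab h (G i) := by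
    intro i
    rw [hbG i, mul_add, Finset.mul_sum]
    simp only [C_mul, mul_assoc]
  have hzero : ∑ i, ∑ t, C (w i * b i t) * (X : M) ^ (s * (t : ℕ)) = 0 := by
    rw [Finset.sum_comm]
    refine Finset.sum_eq_zero fun t _ => ?_
    rw [← Finset.sum_mul, ← map_sum, hw' t, C_0, zero_mul]
  have hnabsum : ∑ i, C (w i) * nab h (G i) = nab h (∑ i, C (w i) * G i) := by
    rw [map_sum]
    refine Finset.sum_congr rfl fun i _ => ?_
    rw [← smul_eq_C_mul, ← smul_eq_C_mul, map_smul]
  have hsum : ∑ i, C (w i) * tar i = nab h (∑ i, C (w i) * G i) := by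
    rw [← hnabsum, Finset.sum_congr rfl fun i _ => hstep i, Finset.sum_add_distrib, hzero,
      zero_add]
  rw [Fintype.sum_option] at hsum
  have h1 : tar none = X ^ n := rfl
  have h2 : ∀ k, tar (some k) = (cst Complex.I * lift h) ^ (k : ℕ) := fun k => rfl
  simp only [h1, h2] at hsum
  refine ⟨w none, fun k => -w (some k), ∑ i, C (w i) * G i, ?_, ?_⟩
  · intro h0
    rw [h0] at hsum
    simp only [C_0, zero_mul, zero_add] at hsum
    have := indep hd hdr hs hm hp (fun k => w (some k)) _ hsum
    rcases i0 with _ | k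
    · exact hi0 h0
    · exact hi0 (congrFun this k)
  · have h3 : ∑ k : Fin r, C (-w (some k)) * (cst Complex.I * lift h) ^ (k : ℕ) +
        ∑ k : Fin r, C (w (some k)) * (cst Complex.I * lift h) ^ (k : ℕ) = 0 := by
      rw [← Finset.sum_add_distrib]
      refine Finset.sum_eq_zero fun k _ => ?_
      rw [← add_mul, ← C_add, neg_add_cancel, C_0, zero_mul]
    have h4 : C (w none) * X ^ n = (∑ k : Fin r, C (-w (some k)) *
        (cst Complex.I * lift h) ^ (k : ℕ) +
        ∑ k : Fin r, C (w (some k)) * (cst Complex.I * lift h) ^ (k : ℕ)) +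
        C (w none) * X ^ n := by rw [h3, zero_add]
    rw [h4, ← hsum, add_assoc, add_comm (∑ k : Fin r, C (w (some k)) * _) (C (w none) * _)]

end

end H48Stein
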