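import Pool.Agent.H48.SteinAlg4
import Pool.Agent.H65.ST2
import Pool.Agent.H65.ST8

open Polynomial Complex

namespace H48Stein

open Pool.Agent.H65.ST

noncomputable section

theorem act_finset_sum {ι : Type*} (s : Finset ι) (k : ι → ℕ) (a : ι → ℂ[X]) (f : ℝ → ℂ) (ξ : ℝ) :
    act (∑ i ∈ s, monomial (k i) (a i)) f ξ =
      ∑ i ∈ s, (a i).eval (ξ : ℂ) * iteratedDeriv (k i) f ξ := by
  classical
  induction s using Finset.induction_on with
  | empty => simp [act_zero]
  | insert i s hi ih => rw [Finset.sum_insert hi, Finset.sum_insert hi, act_add, act_monomial, ih]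

theorem Phi_nab (h : ℝ[X]) (G : M) {ξ : ℝ} (hξ : ξ ≠ 0) :
    Phi gam h ((nab (toC h) G).map (evalRingHom ((ξ : ℂ)⁻¹))) ξ = 0 := by
  have hξ' : (ξ : ℂ) ≠ 0 := by exact_mod_cast hξ
  set G' := G.map (evalRingHom ((ξ : ℂ)⁻¹)) with hG'
  have h1 : (nab (toC h) G).map (evalRingHom ((ξ : ℂ)⁻¹)) =
      C ((ξ : ℂ)⁻¹) * derivative G' + (C I * (toC (derivative h) * G') -
        C ((ξ : ℂ)⁻¹) * (X * G')) := by
    rw [nab_apply]
    simp only [Polynomial.map_add, Polynomial.map_mul, Polynomial.map_sub]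
    have e1 : Polynomial.map (evalRingHom ((ξ : ℂ)⁻¹)) eta = C ((ξ : ℂ)⁻¹) := by
      simp [eta]
    have e2 : Polynomial.map (evalRingHom ((ξ : ℂ)⁻¹)) (cst I) = C I := by
      simp [cst]
    have e3 : Polynomial.map (evalRingHom ((ξ : ℂ)⁻¹)) (lift (derivative (toC h))) =
        toC (derivative h) := by
      rw [lift, Polynomial.map_map]
      have : (evalRingHom ((ξ : ℂ)⁻¹)).comp (C : ℂ →+* ℂ[X]) = RingHom.id ℂ := by
        ext z; simp
      rw [this, Polynomial.map_id]
      simp [toC, derivative_map]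
    have e4 : Polynomial.map (evalRingHom ((ξ : ℂ)⁻¹)) (derivative G) = derivative G' := by
      rw [hG', derivative_map]
    have e5 : Polynomial.map (evalRingHom ((ξ : ℂ)⁻¹)) (X : M) = X := by simp
    rw [e1, e2, e3, e4, e5, ← hG']
    ring
  rw [h1, Phi_add allMom_gauss, Phi_sub allMom_gauss, Phi_C_mul, Phi_C_mul, Phi_C_mul, Phi_ibp]
  field_simp
  ring

theorem reflect_eval {f : ℂ[X]} {N : ℕ} (hf : f.natDegree ≤ N) {z : ℂ} (hz : z ≠ 0) :
    (reflect N f).eval z = z ^ N * f.eval z⁻¹ := by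
  have hz' : z⁻¹ ≠ 0 := inv_ne_zero hz
  let _ : Invertible (z⁻¹) := invertibleOfNonzero hz'
  have := eval₂_reflect_mul_pow (RingHom.id ℂ) (z⁻¹) N f hf
  rw [invOf_eq_inv, inv_inv] at this
  simp only [eval₂_id] at this
  rw [← this, inv_pow]
  field_simp

/-- Module M5. -/
theorem exists_act_aux (h : ℝ[X]) {s r d : ℕ} (hd : 0 < d) (hdr : d = s * (r - 1))
    (hs : (s = 1 ∧ Odd d) ∨ s = 2) (hm : h.Monic) (hp : h.natDegree = d + 2)
    (hsup : ∀ n, h.coeff n ≠ 0 → s ∣ n) (n : ℕ) (hn : s ∣ n) :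
    ∃ (q : ℂ[X]) (A : ℂ[X][X]), q ≠ 0 ∧
      ∀ ξ : ℝ, q.eval (ξ : ℂ) * Phi gam h (X ^ n) ξ = act A (Phi gam h 1) ξ := by
  classical
  have hm' : (toC h).Monic := hm.map _
  have hp' : (toC h).natDegree = d + 2 := by
    rw [toC, natDegree_map_eq_of_injective (RingHom.injective _), hp]
  have hsup' : ∀ n, (toC h).coeff n ≠ 0 → s ∣ n := by
    intro n hn
    apply hsup
    intro h0
    apply hn
    rw [toC, coeff_map, h0, map_zero]
  obtain ⟨q, c, G, hq, hrel⟩ := exists_relation hd hdr hs hm' hp' hsup' n hn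
  set L : ℕ := q.natDegree + Finset.univ.sup fun k => (c k).natDegree with hL
  have hqL : q.natDegree ≤ L := Nat.le_add_right _ _
  have hcL : ∀ k, (c k).natDegree ≤ L := fun k =>
    (Finset.le_sup (f := fun k => (c k).natDegree) (Finset.mem_univ k)).trans
      (Nat.le_add_left _ _)
  refine ⟨X * reflect L q, ∑ k : Fin r, monomial (k : ℕ) (X * reflect L (c k)), ?_, ?_⟩
  · apply mul_ne_zero X_ne_zero
    rw [Ne, reflect_eq_zero_iff]
    exact hq
  · intro ξ
    rw [act_finset_sum]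
    by_cases hξ : ξ = 0
    · subst hξ
      simp
    · have hξ' : (ξ : ℂ) ≠ 0 := by exact_mod_cast hξ
      have h1 := congrArg (fun g : M => Phi gam h (g.map (evalRingHom ((ξ : ℂ)⁻¹))) ξ) hrel
      simp only [Polynomial.map_add] at h1
      rw [Phi_add allMom_gauss, Phi_nab h G hξ, add_zero, Polynomial.map_sum,
        Phi_sum allMom_gauss] at h1
      simp only [Polynomial.map_mul, Polynomial.map_pow, Polynomial.map_C, Polynomial.map_X,
        coe_evalRingHom] at h1
      rw [Phi_C_mul] at h1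
      have h2 : ∀ k : Fin r, Phi gam h (C (eval (ξ : ℂ)⁻¹ (c k)) *
          (Polynomial.map (evalRingHom ((ξ : ℂ)⁻¹)) (cst I) *
            Polynomial.map (evalRingHom ((ξ : ℂ)⁻¹)) (lift (toC h))) ^ (k : ℕ)) ξ =
          eval (ξ : ℂ)⁻¹ (c k) * iteratedDeriv (k : ℕ) (Phi gam h 1) ξ := by
        intro k
        have e2 : Polynomial.map (evalRingHom ((ξ : ℂ)⁻¹)) (cst I) = C I := by
          simp [cst]
        have e3 : Polynomial.map (evalRingHom ((ξ : ℂ)⁻¹)) (lift (toC h)) = toC h := by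
          rw [lift, Polynomial.map_map]
          have : (evalRingHom ((ξ : ℂ)⁻¹)).comp (C : ℂ →+* ℂ[X]) = RingHom.id ℂ := by
            ext z; simp
          rw [this, Polynomial.map_id]
        rw [e2, e3, Phi_C_mul, mul_pow, ← C_pow, Phi_C_mul, iteratedDeriv_Phi allMom_gauss]
        simp
      simp only [h2] at h1
      rw [eval_mul, eval_X, reflect_eval hqL hξ']
      have h3 : ∀ k : Fin r, (X * reflect L (c k)).eval (ξ : ℂ) =
          (ξ : ℂ) * (ξ : ℂ) ^ L * (c k).eval (ξ : ℂ)⁻¹ := by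
        intro k
        rw [eval_mul, eval_X, reflect_eval (hcL k) hξ']
        ring
      simp only [h3]
      calc (ξ : ℂ) * ((ξ : ℂ) ^ L * eval (ξ : ℂ)⁻¹ q) * Phi gam h (X ^ n) ξ
          = (ξ : ℂ) * (ξ : ℂ) ^ L * (eval (ξ : ℂ)⁻¹ q * Phi gam h (X ^ n) ξ) := by ring
        _ = _ := by
          rw [h1, Finset.mul_sum]
          refine Finset.sum_congr rfl fun k _ => ?_
          ring

theorem even_coeff {h : ℝ[X]} (he : ∀ x, h.eval (-x) = h.eval x) (n : ℕ) (hn : h.coeff n ≠ 0) :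
    2 ∣ n := by
  have h1 : h.comp (C (-1) * X) = h := by
    apply Polynomial.funext
    intro x
    simp [eval_comp, he]
  by_contra hodd
  have hodd' : Odd n := by
    rw [← Nat.not_even_iff_odd]
    exact fun h => hodd h.two_dvd
  apply hn
  have h2 := congrArg (fun q => q.coeff n) h1
  simp only [comp_C_mul_X_coeff] at h2
  rw [hodd'.neg_one_pow] at h2
  linarith

/-- Module M5: for every `j` some nonzero polynomial multiple of `F_j` lies in the differential
module generated by `F_0`. -/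
theorem exists_act (h : ℝ[X]) (hm : h.Monic) (hd3 : 3 ≤ h.natDegree)
    (hpar : Odd h.natDegree ∨ ∀ x, h.eval (-x) = h.eval x) (j : ℕ) :
    ∃ (q : ℂ[X]) (A : ℂ[X][X]), q ≠ 0 ∧
      ∀ ξ : ℝ, q.eval (ξ : ℂ) * Phi gam h (X ^ j) ξ = act A (Phi gam h 1) ξ := by
  obtain ⟨d, hd⟩ : ∃ d, h.natDegree = d + 2 := ⟨h.natDegree - 2, by omega⟩
  by_cases hodd : Odd h.natDegree
  · have hdodd : Odd d := by
      rw [hd] at hodd
      rcases hodd with ⟨k, hk⟩
      exact ⟨k - 1, by omega⟩
    exact exists_act_aux h (s := 1) (r := d + 1) (by omega) (by omega) (Or.inl ⟨rfl, hdodd⟩) hm hd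
      (fun n _ => one_dvd n) j (one_dvd j)
  · have he : ∀ x, h.eval (-x) = h.eval x := by
      rcases hpar with hpar | hpar
      · exact absurd hpar hodd
      · exact hpar
    rcases Nat.even_or_odd j with hj | hj
    · have hdiv : 2 ∣ h.natDegree :=
        even_coeff he _ (by rw [hm.coeff_natDegree]; exact one_ne_zero)
      exact exists_act_aux h (s := 2) (r := d / 2 + 1) (by omega) (by omega) (Or.inr rfl) hm hd
        (even_coeff he) j hj.two_dvd
    · refine ⟨1, 0, one_ne_zero, fun ξ => ?_⟩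
      rw [Phi_odd h he hj, act_zero, mul_zero]

end

end H48Stein
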