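import Pool.Agent.H48.SteinM5

open Polynomial Complex

namespace H48Stein

open Pool.Agent.H65.ST

noncomputable section

/-- A nontrivial relation between the powers of `i h` modulo the image of `nab h`. -/
theorem exists_relation0 {s r d : ℕ} (hd : 0 < d) (hdr : d = s * (r - 1))
    (hs : (s = 1 ∧ Odd d) ∨ s = 2) {h : ℂ[X]} (hm : h.Monic) (hp : h.natDegree = d + 2)
    (hsup : ∀ n, h.coeff n ≠ 0 → s ∣ n) :
    ∃ (c : Fin (r + 1) → ℂ[X]) (G : M), c ≠ 0 ∧
      ∑ k, C (c k) * (cst Complex.I * lift h) ^ (k : ℕ) = nab h G := by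
  classical
  have hco : ∀ g : M, g ∈ gen h s r → ∃ (b : Fin r → ℂ[X]) (G : M),
      g = ∑ t, C (b t) * X ^ (s * (t : ℕ)) + nab h G := by
    intro g hg
    obtain ⟨y, hy, z, hz, rfl⟩ := Submodule.mem_sup.mp hg
    obtain ⟨b, rfl⟩ := (Submodule.mem_span_range_iff_exists_fun ℂ[X]).mp hy
    obtain ⟨G, rfl⟩ := hz
    refine ⟨b, G, ?_⟩
    simp only [smul_eq_C_mul]
  set tar : Fin (r + 1) → M := fun k => (cst Complex.I * lift h) ^ (k : ℕ) with htardef
  have htar : ∀ i : Fin (r + 1), ∃ (b : Fin r → ℂ[X]) (G : M),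
      tar i = ∑ t, C (b t) * X ^ (s * (t : ℕ)) + nab h G := by
    intro k
    exact hco _ (lift_pow_mem_gen hd hdr hs hm hp hsup k)
  choose b G hbG using htar
  have hdep : ¬ LinearIndependent ℂ[X] b := by
    intro hli
    have := hli.fintype_card_le_finrank
    simp at this
  rw [Fintype.not_linearIndependent_iff] at hdep
  obtain ⟨w, hw, i0, hi0⟩ := hdep
  have hw' : ∀ t, ∑ i, w i * b i t = 0 := by
    intro t
    have := congrFun hw t
    simpa [Finset.sum_apply] using this
  have hstep : ∀ i, C (w i) * tar i = ∑ t, C (w i * b i t) * (X : M) ^ (s * (t : ℕ)) +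
      C (w i) * nab h (G i) := by
    intro i
    rw [hbG i, mul_add, Finset.mul_sum]
    simp only [C_mul, mul_assoc]
  have hzero : ∑ i, ∑ t, C (w i * b i t) * (X : M) ^ (s * (t : ℕ)) = 0 := by
    rw [Finset.sum_comm]
    refine Finset.sum_eq_zero fun t _ => ?_
    rw [← Finset.sum_mul, ← map_sum, hw' t, C_0, zero_mul]
  have hnabsum : ∑ i, C (w i) * nab h (G i) = nab h (∑ i, C (w i) * G i) := by
    rw [map_sum]
    refine Finset.sum_congr rfl fun i _ => ?_
    rw [← smul_eq_C_mul, ← smul_eq_C_mul, map_smul]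
  have hsum : ∑ i, C (w i) * tar i = nab h (∑ i, C (w i) * G i) := by
    rw [← hnabsum, Finset.sum_congr rfl fun i _ => hstep i, Finset.sum_add_distrib, hzero,
      zero_add]
  exact ⟨w, ∑ i, C (w i) * G i, fun h0 => hi0 (congrFun h0 i0), hsum⟩

theorem exists_kill_aux (h : ℝ[X]) {s r d : ℕ} (hd : 0 < d) (hdr : d = s * (r - 1))
    (hs : (s = 1 ∧ Odd d) ∨ s = 2) (hm : h.Monic) (hp : h.natDegree = d + 2)
    (hsup : ∀ n, h.coeff n ≠ 0 → s ∣ n) :
    ∃ A : ℂ[X][X], A ≠ 0 ∧ A.natDegree ≤ r ∧ ∀ ξ : ℝ, act A (Phi gam h 1) ξ = 0 := by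
  classical
  have hm' : (toC h).Monic := hm.map _
  have hp' : (toC h).natDegree = d + 2 := by
    rw [toC, natDegree_map_eq_of_injective (RingHom.injective _), hp]
  have hsup' : ∀ n, (toC h).coeff n ≠ 0 → s ∣ n := by
    intro n hn
    apply hsup
    intro h0
    apply hn
    rw [toC, coeff_map, h0, map_zero]
  obtain ⟨c, G, hc, hrel⟩ := exists_relation0 hd hdr hs hm' hp' hsup'
  set L : ℕ := Finset.univ.sup fun k => (c k).natDegree with hL
  have hcL : ∀ k, (c k).natDegree ≤ L := fun k =>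
    (Finset.le_sup (f := fun k => (c k).natDegree) (Finset.mem_univ k))
  set A : ℂ[X][X] := ∑ k : Fin (r + 1), monomial (k : ℕ) (X * reflect L (c k)) with hA
  have hcoef : ∀ k : Fin (r + 1), A.coeff (k : ℕ) = X * reflect L (c k) := by
    intro k
    rw [hA, finsetSum_coeff, Finset.sum_eq_single k]
    · simp
    · intro b _ hb
      rw [coeff_monomial, if_neg (fun hh => hb (Fin.ext hh))]
    · simp
  refine ⟨A, ?_, ?_, ?_⟩
  · obtain ⟨k, hk⟩ : ∃ k, c k ≠ 0 := by
      by_contra hall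
      push Not at hall
      exact hc (funext hall)
    intro h0
    have := hcoef k
    rw [h0, coeff_zero] at this
    have h2 : X * reflect L (c k) ≠ 0 := by
      apply mul_ne_zero X_ne_zero
      rw [Ne, reflect_eq_zero_iff]
      exact hk
    exact h2 this.symm
  · rw [hA]
    refine natDegree_sum_le_of_forall_le _ _ fun k _ => ?_
    refine (natDegree_monomial_le _).trans ?_
    omega
  · intro ξ
    rw [hA, act_finset_sum]
    by_cases hξ : ξ = 0
    · subst hξ
      simp
    · have hξ' : (ξ : ℂ) ≠ 0 := by exact_mod_cast hξ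
      have h1 := congrArg (fun g : M => Phi gam h (g.map (evalRingHom ((ξ : ℂ)⁻¹))) ξ) hrel
      rw [Phi_nab h G hξ, Polynomial.map_sum, Phi_sum allMom_gauss] at h1
      simp only [Polynomial.map_mul, Polynomial.map_pow, Polynomial.map_C,
        coe_evalRingHom] at h1
      have h2 : ∀ k : Fin (r + 1), Phi gam h (C (eval (ξ : ℂ)⁻¹ (c k)) *
          (Polynomial.map (evalRingHom ((ξ : ℂ)⁻¹)) (cst I) *
            Polynomial.map (evalRingHom ((ξ : ℂ)⁻¹)) (lift (toC h))) ^ (k : ℕ)) ξ =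
          eval (ξ : ℂ)⁻¹ (c k) * iteratedDeriv (k : ℕ) (Phi gam h 1) ξ := by
        intro k
        have e2 : Polynomial.map (evalRingHom ((ξ : ℂ)⁻¹)) (cst I) = C I := by
          simp [cst]
        have e3 : Polynomial.map (evalRingHom ((ξ : ℂ)⁻¹)) (lift (toC h)) = toC h := by
          rw [lift, Polynomial.map_map]
          have : (evalRingHom ((ξ : ℂ)⁻¹)).comp (C : ℂ →+* ℂ[X]) = RingHom.id ℂ := by
            ext z; simp
          rw [this, Polynomial.map_id]
        rw [e2, e3, Phi_C_mul, mul_pow, ← C_pow, Phi_C_mul, iteratedDeriv_Phi allMom_gauss]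
        simp
      simp only [h2] at h1
      have h3 : ∀ k : Fin (r + 1), (X * reflect L (c k)).eval (ξ : ℂ) =
          (ξ : ℂ) * (ξ : ℂ) ^ L * (c k).eval (ξ : ℂ)⁻¹ := by
        intro k
        rw [eval_mul, eval_X, reflect_eval (hcL k) hξ']
        ring
      simp only [h3]
      calc ∑ k : Fin (r + 1), (ξ : ℂ) * (ξ : ℂ) ^ L * eval (ξ : ℂ)⁻¹ (c k) *
            iteratedDeriv (k : ℕ) (Phi gam h 1) ξ
          = (ξ : ℂ) * (ξ : ℂ) ^ L * ∑ k : Fin (r + 1), eval (ξ : ℂ)⁻¹ (c k) *
            iteratedDeriv (k : ℕ) (Phi gam h 1) ξ := by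
            rw [Finset.mul_sum]
            refine Finset.sum_congr rfl fun k _ => ?_
            ring
        _ = 0 := by rw [h1, mul_zero]

/-- There is a nonzero operator killing `Phi gam h 1`; its order is at most `natDegree h - 1`, and at
most `natDegree h / 2` if `natDegree h` is even. -/
theorem exists_kill (h : ℝ[X]) (hm : h.Monic) (hd3 : 3 ≤ h.natDegree)
    (hpar : Odd h.natDegree ∨ ∀ x, h.eval (-x) = h.eval x) :
    ∃ A : ℂ[X][X], A ≠ 0 ∧
      A.natDegree ≤ (if Odd h.natDegree then h.natDegree - 1 else h.natDegree / 2) ∧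
      ∀ ξ : ℝ, act A (Phi gam h 1) ξ = 0 := by
  obtain ⟨d, hd⟩ : ∃ d, h.natDegree = d + 2 := ⟨h.natDegree - 2, by omega⟩
  by_cases hodd : Odd h.natDegree
  · have hdodd : Odd d := by
      rw [hd] at hodd
      rcases hodd with ⟨k, hk⟩
      exact ⟨k - 1, by omega⟩
    rw [if_pos hodd]
    obtain ⟨A, h1, h2, h3⟩ := exists_kill_aux h (s := 1) (r := d + 1) (by omega) (by omega)
      (Or.inl ⟨rfl, hdodd⟩) hm hd (fun n _ => one_dvd n)
    exact ⟨A, h1, by omega, h3⟩
  · have he : ∀ x, h.eval (-x) = h.eval x := by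
      rcases hpar with hpar | hpar
      · exact absurd hpar hodd
      · exact hpar
    have hdiv : 2 ∣ h.natDegree :=
      even_coeff he _ (by rw [hm.coeff_natDegree]; exact one_ne_zero)
    rw [if_neg hodd]
    obtain ⟨A, h1, h2, h3⟩ := exists_kill_aux h (s := 2) (r := d / 2 + 1) (by omega) (by omega)
      (Or.inr rfl) hm hd (even_coeff he)
    exact ⟨A, h1, by omega, h3⟩

end

end H48Stein
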